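import Pool.Agent.H24.LV.Targets
import Pool.Agent.H31.CLK.GA

/-!
# The game with a logarithmic length: row GAL (helper79)
-/

set_option autoImplicit false

open Finset

namespace Pool.Agent.H79.LVP

open Pool.Agent.H24.CL Pool.Agent.H24.LV Pool.Agent.H31.CLK

/-! ## The greedy sums -/

open Classical in
/-- one greedy step -/
noncomputable def stp (P : ℕ → ℝ → Prop) (es c : ℝ) (i : ℕ) (s : ℝ) : ℝ :=
  s + if P i (min es (c * s)) then min es (c * s) else 0

/-- greedy sums -/
noncomputable def SS (P : ℕ → ℝ → Prop) (es c s₀ : ℝ) : ℕ → ℝ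
  | 0 => s₀
  | i + 1 => stp P es c i (SS P es c s₀ i)

theorem SS_succ (P : ℕ → ℝ → Prop) (es c s₀ : ℝ) (i : ℕ) :
    SS P es c s₀ (i + 1) = stp P es c i (SS P es c s₀ i) := rfl

theorem stp_ge (P : ℕ → ℝ → Prop) {es c : ℝ} (hes : 0 < es) (hc : 0 < c) (i : ℕ) {s : ℝ}
    (hs : 0 < s) : s ≤ stp P es c i s := by
  unfold stp
  have h : 0 < min es (c * s) := lt_min hes (mul_pos hc hs)
  split_ifs
  · linarith
  · linarith

theorem stp_le (P : ℕ → ℝ → Prop) {es c : ℝ} (hc : 0 < c) (i : ℕ) {s : ℝ}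
    (hs : 0 < s) : stp P es c i s ≤ s + c * s := by
  unfold stp
  have h : min es (c * s) ≤ c * s := min_le_right _ _
  have h2 : 0 < c * s := mul_pos hc hs
  split_ifs
  · linarith
  · linarith

theorem SS_pos (P : ℕ → ℝ → Prop) {es c s₀ : ℝ} (hes : 0 < es) (hc : 0 < c) (hs : 0 < s₀)
    (i : ℕ) : s₀ ≤ SS P es c s₀ i := by
  induction i with
  | zero => exact le_rfl
  | succ i ih => exact ih.trans (stp_ge P hes hc i (by linarith))

theorem SS_mono (P : ℕ → ℝ → Prop) {es c s₀ : ℝ} (hes : 0 < es) (hc : 0 < c) (hs : 0 < s₀) :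
    Monotone (SS P es c s₀) := by
  refine monotone_nat_of_le_succ fun i => ?_
  exact stp_ge P hes hc i (lt_of_lt_of_le hs (SS_pos P hes hc hs i))

theorem SS_add_le (P : ℕ → ℝ → Prop) {es c s₀ : ℝ} (hes : 0 < es) (hc : 0 < c) (hs : 0 < s₀)
    (i t : ℕ) : SS P es c s₀ (i + t) ≤ SS P es c s₀ i + (t : ℝ) * c * SS P es c s₀ (i + t) := by
  induction t with
  | zero => simp
  | succ t ih =>
    have h1 : SS P es c s₀ (i + (t + 1)) ≤
        SS P es c s₀ (i + t) + c * SS P es c s₀ (i + t) :=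
      stp_le P hc _ (lt_of_lt_of_le hs (SS_pos P hes hc hs _))
    have h2 : SS P es c s₀ (i + t) ≤ SS P es c s₀ (i + (t + 1)) :=
      SS_mono P hes hc hs (by omega)
    have h3 : c * SS P es c s₀ (i + t) ≤ c * SS P es c s₀ (i + (t + 1)) :=
      mul_le_mul_of_nonneg_left h2 hc.le
    have h4 : (t : ℝ) * c * SS P es c s₀ (i + t) ≤
        (t : ℝ) * c * SS P es c s₀ (i + (t + 1)) :=
      mul_le_mul_of_nonneg_left h2 (by positivity)
    push_cast
    linarith

open Classical in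
theorem SS_growth (P : ℕ → ℝ → Prop) {es c s₀ η B : ℝ} (hes : 0 < es) (hc : 0 < c)
    (hs : 0 < s₀) (hη : 0 < η) (hηc : η ≤ c) (hηB : η * B ≤ es) (n : ℕ)
    (hB : ∀ i < n, SS P es c s₀ i ≤ B) :
    s₀ * (1 + η) ^ ((range n).filter fun i => P i (min es (c * SS P es c s₀ i))).card ≤
      SS P es c s₀ n := by
  induction n with
  | zero => simp [SS]
  | succ n ih =>
    have ih' := ih fun i hi => hB i (by omega)
    have hBn := hB n (by omega)
    have hp : 0 < SS P es c s₀ n := lt_of_lt_of_le hs (SS_pos P hes hc hs n)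
    rw [SS_succ, Finset.range_add_one, Finset.filter_insert]
    unfold stp
    split_ifs with h
    · rw [Finset.card_insert_of_notMem (by simp), pow_succ]
      have h1 : η * SS P es c s₀ n ≤ min es (c * SS P es c s₀ n) := by
        refine le_min ?_ (mul_le_mul_of_nonneg_right hηc hp.le)
        exact (mul_le_mul_of_nonneg_left hBn hη.le).trans hηB
      have h2 : s₀ * (1 + η) ^ ((range n).filter fun i =>
          P i (min es (c * SS P es c s₀ i))).card * (1 + η) ≤ SS P es c s₀ n * (1 + η) :=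
        mul_le_mul_of_nonneg_right ih' (by linarith)
      linarith
    · linarith

/-! ## The game -/

theorem near_one {k m : ℕ} {R : ℕ → ℕ} {g p : ℕ → ℝ} {del θ : ℝ} (G : Gm k m R g p (del / 8))
    (hdel0 : 0 < del) (hdelk : del * (8 * k) ≤ 1) (hθ0 : 0 < θ) (hθ : θ ≤ del / 4)
    (hθk : θ * (4 * k) ≤ 1) {l : ℕ} (hl2 : 2 ≤ l) (hl : l + k ≤ m) (hgl' : g l ≤ 1 - del)
    (hex : ∃ i', l ≤ i' ∧ i' + 1 < l + k ∧ ¬ (g i' ≤ θ ∧ p i' ≤ θ)) :
    ∃ j, l ≤ j + 2 ∧ j + 2 ≤ l + k ∧ RW k R g p (del / 8) θ j := by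
  classical
  have hk := G.hk
  have hk3 : (3 : ℝ) ≤ k := by exact_mod_cast hk
  have hdel1 : del ≤ 1 / 24 := by nlinarith
  by_cases hgl : θ < g l
  · obtain ⟨b, rfl⟩ : ∃ b, l = b + 2 := ⟨l - 2, by omega⟩
    rcases gain G del θ hdel0 hdelk le_rfl hθ0 hθ b (by omega) hgl.le (Or.inl hgl') with h4 | h4
    · exact ⟨b + 1, by omega, by omega, h4⟩
    · exact ⟨b, by omega, by omega, h4⟩
  · rw [not_lt] at hgl
    have hfind := Nat.find_spec hex
    set i := Nat.find hex with hi
    obtain ⟨hi1, hi2, hi3⟩ := hfind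
    by_cases hpi : θ ≤ p i
    · exact ⟨i, by omega, by omega, rw_one G (by omega) (by linarith) hpi⟩
    · rw [not_le] at hpi
      have hgi : θ < g i := by
        by_contra hcon
        rw [not_lt] at hcon
        exact hi3 ⟨hcon, hpi.le⟩
      have hil : l < i := by
        rcases Nat.lt_or_ge l i with h | h
        · exact h
        · have : i = l := by omega
          rw [this] at hgi
          linarith
      have hprev : g (i - 1) ≤ θ := by
        by_contra hcon
        have := Nat.find_min hex (m := i - 1) (by omega)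
        apply this
        exact ⟨by omega, by omega, fun h => hcon h.1⟩
      obtain ⟨b, hb⟩ : ∃ b, i = b + 2 := ⟨i - 2, by omega⟩
      rw [hb] at hgi hprev hi2 hil
      have hprev' : g (b + 1) ≤ θ := hprev
      have hgb : g (b + 1) * (4 * k) ≤ 1 := by
        have h5 : g (b + 1) * (4 * k) ≤ θ * (4 * k) :=
          mul_le_mul_of_nonneg_right hprev' (by positivity)
        linarith
      rcases gain G del θ hdel0 hdelk le_rfl hθ0 hθ b (by omega) hgi.le
        (Or.inr hgb) with h4 | h4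
      · exact ⟨b + 1, by omega, by omega, h4⟩
      · exact ⟨b, by omega, by omega, h4⟩

theorem payoff {k m : ℕ} {R : ℕ → ℕ} {g p : ℕ → ℝ} {kap es c s₀ : ℝ}
    (h0 : ∀ j < m, RW k R g p kap 0 j)
    (hbase : ∃ x : ℕ → ℝ, (∀ j < k, OptK k R g p kap j (x j)) ∧
      ∑ j ∈ range k, x j = s₀ - PHI k g p R k)
    (i : ℕ) (hi : k + i ≤ m) :
    ∃ x : ℕ → ℝ, (∀ j < k + i, OptK k R g p kap j (x j)) ∧
      ∑ j ∈ range (k + i), x j =
        SS (fun i θ => RW k R g p kap θ (k + i)) es c s₀ i - PHI k g p R (k + i) := by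
  classical
  induction i with
  | zero => exact hbase
  | succ i ih =>
    obtain ⟨x, hx1, hx2⟩ := ih (by omega)
    set s := SS (fun i θ => RW k R g p kap θ (k + i)) es c s₀ i with hs
    set v : ℝ := if RW k R g p kap (min es (c * s)) (k + i) then min es (c * s) else 0 with hv
    have hvR : RW k R g p kap v (k + i) := by
      rw [hv]
      split_ifs with h
      · exact h
      · exact h0 _ (by omega)
    have hS : SS (fun i θ => RW k R g p kap θ (k + i)) es c s₀ (i + 1) = s + v := by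
      rw [SS_succ, ← hs, hv]
      unfold stp
      congr
    refine ⟨Function.update x (k + i)
      (PHI k g p R (k + i) - PHI k g p R (k + i + 1) + v), ?_, ?_⟩
    · intro j hj
      by_cases hjk : j = k + i
      · subst hjk
        rw [Function.update_self]
        exact hvR
      · rw [Function.update_of_ne hjk]
        exact hx1 j (by omega)
    · rw [hS, ← Nat.add_assoc, Finset.sum_range_succ, Function.update_self]
      have h1 : ∑ j ∈ range (k + i), Function.update x (k + i)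
          (PHI k g p R (k + i) - PHI k g p R (k + i + 1) + v) j =
          ∑ j ∈ range (k + i), x j := by
        refine Finset.sum_congr rfl fun j hj => ?_
        rw [mem_range] at hj
        rw [Function.update_of_ne (by omega)]
      rw [h1, hx2]
      ring

theorem pf_GAL : L_GA := by
  classical
  intro k hk
  have hk3 : (3 : ℝ) ≤ k := by exact_mod_cast hk
  have hKN : (6 : ℝ) ≤ (KN k : ℝ) := by
    rw [KN_real]; nlinarith
  obtain ⟨del, hdel⟩ : ∃ del : ℝ, del = 1 / (8 * k * ((KN k : ℝ) + 4)) := ⟨_, rfl⟩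
  have hdel0 : 0 < del := by rw [hdel]; positivity
  have hdelmul : del * (8 * k * ((KN k : ℝ) + 4)) = 1 := by
    rw [hdel]; field_simp
  have hdelk : del * (8 * k) ≤ 1 := by
    have h1 : 0 < del * (8 * k) := by positivity
    nlinarith
  have hdelK : del * ((KN k : ℝ) + 4) ≤ 1 / 24 := by
    have h1 : 0 < del * ((KN k : ℝ) + 4) := by positivity
    nlinarith
  have hdel1 : del ≤ 1 / 24 := by nlinarith
  have hk27 : (27 : ℝ) ≤ (k : ℝ) ^ 3 := by
    have : (3 : ℝ) ^ 3 ≤ (k : ℝ) ^ 3 := pow_le_pow_left₀ (by norm_num) hk3 3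
    linarith
  have hkk3 : (k : ℝ) ≤ (k : ℝ) ^ 3 := le_self_pow₀ (by linarith) (by norm_num)
  obtain ⟨es, hes⟩ : ∃ es : ℝ, es = del / 8 := ⟨_, rfl⟩
  have hes0 : 0 < es := by rw [hes]; positivity
  obtain ⟨c, hc⟩ : ∃ c : ℝ, c = 1 / (8 * (k : ℝ) ^ 3) := ⟨_, rfl⟩
  have hc0 : 0 < c := by rw [hc]; positivity
  have hcmul : c * (8 * (k : ℝ) ^ 3) = 1 := by rw [hc]; field_simp
  have hck : (k : ℝ) * c ≤ 1 / 8 := by
    have : (k : ℝ) * c ≤ (k : ℝ) ^ 3 * c := mul_le_mul_of_nonneg_right hkk3 hc0.le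
    linarith
  obtain ⟨η, hη⟩ : ∃ η : ℝ, η = min c (es / (4 * (k : ℝ) ^ 3)) := ⟨_, rfl⟩
  have hη0 : 0 < η := by rw [hη]; exact lt_min hc0 (by positivity)
  have hηc : η ≤ c := by rw [hη]; exact min_le_left _ _
  have hηB : η * (4 * (k : ℝ) ^ 3) ≤ es := by
    have h1 : η ≤ es / (4 * (k : ℝ) ^ 3) := by rw [hη]; exact min_le_right _ _
    rwa [le_div_iff₀ (by positivity)] at h1
  obtain ⟨lam, hlam⟩ : ∃ lam : ℝ, lam = Real.log (1 + η) := ⟨_, rfl⟩
  have hlam0 : 0 < lam := by rw [hlam]; exact Real.log_pos (by linarith)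
  obtain ⟨L₀, hL₀⟩ : ∃ L₀ : ℝ, L₀ = Real.log (16 * (k : ℝ) ^ 3 / del) := ⟨_, rfl⟩
  have hL₀0 : 0 ≤ L₀ := by
    rw [hL₀]
    refine Real.log_nonneg ?_
    rw [le_div_iff₀ hdel0]
    linarith
  have hbig : 0 ≤ 2 * ((k : ℝ) + 1) * (L₀ + 1) / lam := by positivity
  refine ⟨8 * k + 16 + 2 * (k + 1) * (L₀ + 1) / lam, by linarith, ?_⟩
  intro c₁ hc₁ hc₁'
  obtain ⟨c₃, hc₃⟩ : ∃ c₃ : ℝ, c₃ = c₁ * del / 4 := ⟨_, rfl⟩
  have hc₃0 : 0 < c₃ := by rw [hc₃]; positivity
  have hc₃del : c₃ ≤ del / 4 := by rw [hc₃]; nlinarith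
  have hc₃c₁ : c₃ ≤ c₁ := by rw [hc₃]; nlinarith
  have hy : 0 ≤ Real.log (1 / c₁) := by
    refine Real.log_nonneg ?_
    rw [le_div_iff₀ hc₁]
    linarith
  refine ⟨c₃ / 2, by positivity, ?_⟩
  intro D hD
  refine ⟨del / 8, by positivity, ?_⟩
  intro m g p R hm hg hp hR hfew hpg hsum hl
  have hkap2 : del / 8 ≤ 1 / (8 * ((KN k : ℝ) + 4)) := by
    rw [le_div_iff₀ (by positivity)]
    nlinarith
  have hG : Gm k m R g p (del / 8) := ⟨hk, by positivity, hkap2, hg, hp, hR, hfew, hpg⟩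
  have hp0 : ∀ j, 0 ≤ p j := fun j => (hp j).1
  have hD1 : 8 * (k : ℝ) + 16 + 2 * (k + 1) * (L₀ + 1) / lam ≤ D := by nlinarith
  have hD2 : 2 * ((k : ℝ) + 1) * (L₀ + 1) / lam * (1 + Real.log (1 / c₁)) ≤ D := by
    have h1 : 0 ≤ (8 * (k : ℝ) + 16) * (1 + Real.log (1 / c₁)) := by positivity
    nlinarith
  have hmD : D - 4 ≤ m := by
    refine hsum.trans ?_
    calc ∑ j ∈ range m, (1 - g j) ≤ ∑ j ∈ range m, (1 : ℝ) := by
          apply Finset.sum_le_sum
          intro j _
          linarith [hg j]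
      _ = m := by simp
  have hmk : 8 * k + 10 ≤ m := by
    have : (8 * (k : ℝ) + 10) ≤ m := by linarith
    exact_mod_cast this
  have h0 : ∀ j < m, RW k R g p (del / 8) 0 j := by
    intro j hj
    exact rw_one hG hj (by norm_num) (hp0 j)
  -- the first gain
  have hG1 : c₃ ≤ PHI k g p R 0 ∨ ∃ j < k, RW k R g p (del / 8) c₃ j := by
    obtain ⟨l, hlk, hcl⟩ := hl
    rcases Nat.lt_or_ge (l + 1) k with h | h
    · left
      have h1 := PHI_zero_ge k g p R hg hp0 l h
      have h2 : c₁ ≤ min 1 (g l) := le_min hc₁' hcl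
      linarith
    · obtain ⟨b, rfl⟩ : ∃ b, k = b + 3 := ⟨k - 3, by omega⟩
      have hlb : l = b + 2 := by omega
      rw [hlb] at hcl
      by_cases hg2 : g (b + 1) * (4 * ((b + 3 : ℕ) : ℝ)) ≤ 1
      · right
        rcases gain hG del c₃ hdel0 hdelk le_rfl hc₃0 hc₃del b (by omega) (by linarith)
          (Or.inr hg2) with h1 | h1
        · exact ⟨b + 1, by omega, h1⟩
        · exact ⟨b, by omega, h1⟩
      · left
        rw [not_le] at hg2
        have h1 := PHI_zero_ge (b + 3) g p R hg hp0 (b + 1) (by omega)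
        have h2 : c₃ ≤ min 1 (g (b + 1)) := by
          apply le_min (by linarith)
          by_contra hcon
          rw [not_le] at hcon
          have h3 : g (b + 1) * (4 * ((b + 3 : ℕ) : ℝ)) ≤
              del / 4 * (4 * ((b + 3 : ℕ) : ℝ)) :=
            mul_le_mul_of_nonneg_right (by linarith) (by positivity)
          nlinarith
        linarith
  have hPHI00 := PHI_nonneg k g p R hg hp0 0
  obtain ⟨s₀, hs₀, hbase⟩ : ∃ s₀ : ℝ, c₃ ≤ s₀ ∧
      ∃ x : ℕ → ℝ, (∀ j < k, OptK k R g p (del / 8) j (x j)) ∧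
        ∑ j ∈ range k, x j = s₀ - PHI k g p R k := by
    rcases hG1 with h1 | ⟨j, hj, h1⟩
    · obtain ⟨x, hx1, hx2⟩ := collect k R g p (del / 8) 0 k ∅ (Finset.empty_subset _)
        (fun j hj => h0 j (by omega)) (fun j hj => absurd hj (Finset.notMem_empty j))
      refine ⟨PHI k g p R 0, h1, x, hx1, ?_⟩
      rw [hx2, zero_mul]
      ring
    · obtain ⟨x, hx1, hx2⟩ := collect k R g p (del / 8) c₃ k {j}
        (by
          intro a ha
          rw [Finset.mem_singleton] at ha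
          rw [mem_range, ha]
          omega)
        (fun j hj => h0 j (by omega)) (fun a ha => by
          rw [Finset.mem_singleton] at ha
          rw [ha]
          exact h1)
      refine ⟨PHI k g p R 0 + c₃, by linarith, x, hx1, ?_⟩
      rw [hx2, Finset.card_singleton]
      push_cast
      ring
  have hs₀0 : 0 < s₀ := by linarith
  set P : ℕ → ℝ → Prop := fun i θ => RW k R g p (del / 8) θ (k + i) with hP
  set S : ℕ → ℝ := SS P es c s₀ with hS
  have hS0 : ∀ i, s₀ ≤ S i := fun i => SS_pos P hes0 hc0 hs₀0 i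
  have hSm : Monotone S := SS_mono P hes0 hc0 hs₀0
  by_cases hno : ∃ i, k + i + (k - 1) ≤ m ∧ c₃ / 2 ≤ S i - PHI k g p R (k + i)
  · obtain ⟨i, hi1, hi2⟩ := hno
    obtain ⟨x, hx1, hx2⟩ := payoff (es := es) (c := c) h0 hbase i (by omega)
    refine ⟨k + i, x, hi1, hx1, ?_⟩
    rw [hx2]
    exact hi2
  exfalso
  push Not at hno
  have hSB : ∀ i, k + i + (k - 1) ≤ m → S i ≤ 4 * (k : ℝ) ^ 3 := by
    intro i hi
    have h1 := hno i hi
    have h2 := PHI_le k g p R hg hp0 (k + i) 1 zero_le_one (fun i' _ _ =>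
      ⟨min_le_left _ _, (hp i').2⟩)
    linarith
  obtain ⟨n₂, hn₂⟩ : ∃ n₂, n₂ = m - (k - 1) - k := ⟨_, rfl⟩
  set J := (range n₂).filter (fun i => P i (min es (c * S i))) with hJ
  have hgrow := SS_growth P hes0 hc0 hs₀0 hη0 hηc hηB n₂ (fun i hi => hSB i (by omega))
  have hend : S n₂ ≤ 4 * (k : ℝ) ^ 3 := hSB n₂ (by omega)
  have hJle : (J.card : ℝ) * lam ≤ L₀ + Real.log (1 / c₁) := by
    have h1 : c₃ * (1 + η) ^ J.card ≤ 4 * (k : ℝ) ^ 3 := by
      have h2 : c₃ * (1 + η) ^ J.card ≤ s₀ * (1 + η) ^ J.card :=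
        mul_le_mul_of_nonneg_right hs₀ (by positivity)
      have h3 : s₀ * (1 + η) ^ J.card ≤ S n₂ := hgrow
      linarith
    have h2 : (1 + η) ^ J.card ≤ 16 * (k : ℝ) ^ 3 / del * (1 / c₁) := by
      rw [hc₃] at h1
      have e : 16 * (k : ℝ) ^ 3 / del * (1 / c₁) = 4 * (k : ℝ) ^ 3 / (c₁ * del / 4) := by
        field_simp
        ring
      rw [e, le_div_iff₀ (by positivity)]
      linarith
    have h3 := Real.log_le_log (by positivity) h2
    rw [Real.log_pow, Real.log_mul (by positivity) (by positivity), ← hlam, ← hL₀] at h3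
    exact h3
  -- every non-full level gives a gain nearby
  have hnear : ∀ l, k + 2 ≤ l → l + 2 * k ≤ m → g l ≤ 1 - del →
      ∃ i ∈ J, l ≤ k + i + 2 ∧ k + i + 2 ≤ l + k := by
    intro l h1 h2 h3
    obtain ⟨i, hi⟩ : ∃ i, l = k + i := ⟨l - k, by omega⟩
    have hSi := hS0 i
    obtain ⟨θ, hθ⟩ : ∃ θ : ℝ, θ = min es (2 * c * S i) := ⟨_, rfl⟩
    have hSi0 : 0 < S i := by linarith
    have hθ0 : 0 < θ := by rw [hθ]; exact lt_min hes0 (by positivity)
    have hθes : θ ≤ es := by rw [hθ]; exact min_le_left _ _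
    have hθS : θ ≤ 2 * c * S i := by rw [hθ]; exact min_le_right _ _
    have hθdel : θ ≤ del / 4 := by linarith
    have hθk : θ * (4 * k) ≤ 1 := by
      have : θ * (4 * k) ≤ del / 8 * (4 * k) :=
        mul_le_mul_of_nonneg_right (by linarith) (by positivity)
      linarith
    have hex : ∃ i', l ≤ i' ∧ i' + 1 < l + k ∧ ¬ (g i' ≤ θ ∧ p i' ≤ θ) := by
      by_contra hcon
      push Not at hcon
      have h4 := PHI_le k g p R hg hp0 l θ hθ0.le (fun i' h5 h6 => by
        by_contra h7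
        have h8 : ¬ (g i' ≤ θ ∧ p i' ≤ θ) := by
          rintro ⟨h9, h10⟩
          exact h7 ⟨(min_le_right _ _).trans h9, h10⟩
        exact h8 (by
          by_contra h9
          have h10 := hcon i' h5 h6
          tauto))
      have h5 := hno i (by omega)
      rw [hi] at h4
      have h6 : 2 * (k : ℝ) ^ 3 * θ ≤ 2 * (k : ℝ) ^ 3 * (2 * c * S i) :=
        mul_le_mul_of_nonneg_left hθS (by positivity)
      have h7 : 2 * (k : ℝ) ^ 3 * (2 * c * S i) = S i / 2 := by
        have : 2 * (k : ℝ) ^ 3 * (2 * c * S i) = c * (8 * (k : ℝ) ^ 3) * S i / 2 := by ring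
        rw [this, hcmul]
        ring
      linarith
    obtain ⟨j, hj1, hj2, hj3⟩ := near_one hG hdel0 hdelk hθ0 hθdel hθk (by omega) (by omega)
      h3 hex
    obtain ⟨a, ha⟩ : ∃ a, j = k + a := ⟨j - k, by omega⟩
    subst ha
    refine ⟨a, ?_, hj1, hj2⟩
    rw [hJ, Finset.mem_filter, mem_range]
    refine ⟨by omega, ?_⟩
    have hSa : S a ≤ 2 * S i := by
      have e1 : S a ≤ S (i + k) := hSm (by omega)
      have e2 : S (i + k) ≤ S i + (k : ℝ) * c * S (i + k) := SS_add_le P hes0 hc0 hs₀0 i k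
      have e3 : 0 < S (i + k) := lt_of_lt_of_le hs₀0 (hS0 _)
      have e4 : (k : ℝ) * c * S (i + k) ≤ 1 / 8 * S (i + k) :=
        mul_le_mul_of_nonneg_right hck e3.le
      linarith
    have hle : min es (c * S a) ≤ θ := by
      rw [hθ]
      refine min_le_min le_rfl ?_
      have := mul_le_mul_of_nonneg_left hSa hc0.le
      linarith
    exact rw_mono hj3 hle
  -- counting
  set N := (range m).filter (fun l => g l ≤ 1 - del) with hN
  set N' := (range m).filter (fun l => g l ≤ 1 - del ∧ k + 2 ≤ l ∧ l + 2 * k ≤ m) with hN'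
  have hc1 : D - 4 ≤ (N.card : ℝ) + del * m := by
    refine hsum.trans ?_
    calc ∑ j ∈ range m, (1 - g j)
        ≤ ∑ j ∈ range m, ((if g j ≤ 1 - del then (1 : ℝ) else 0) + del) := by
          apply Finset.sum_le_sum
          intro j _
          split_ifs with h
          · linarith [hg j]
          · rw [not_le] at h
            linarith
      _ = (N.card : ℝ) + del * m := by
          rw [Finset.sum_add_distrib, Finset.sum_const, Finset.card_range, nsmul_eq_mul,
            Finset.sum_boole, hN]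
          ring
  have hc2 : N.card ≤ N'.card + (k + 2) + 2 * k := by
    have hsub : N ⊆ (N' ∪ range (k + 2)) ∪ Ico (m + 1 - 2 * k) (m + 1) := by
      intro l hl'
      rw [hN, Finset.mem_filter, mem_range] at hl'
      rw [Finset.mem_union, Finset.mem_union, hN', Finset.mem_filter, mem_range, mem_range,
        Finset.mem_Ico]
      by_cases h1 : k + 2 ≤ l
      · by_cases h2 : l + 2 * k ≤ m
        · left; left
          exact ⟨hl'.1, hl'.2, h1, h2⟩
        · right
          omega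
      · left; right
        omega
    have h1 := Finset.card_le_card hsub
    have h2 := Finset.card_union_le (N' ∪ range (k + 2)) (Ico (m + 1 - 2 * k) (m + 1))
    have h3 := Finset.card_union_le N' (range (k + 2))
    rw [Finset.card_range] at h3
    rw [Nat.card_Ico] at h2
    omega
  have hc3 : N'.card ≤ J.card * (k + 1) := by
    have hsub : N' ⊆ J.biUnion (fun i => Icc (i + 2) (k + i + 2)) := by
      intro l hl'
      rw [hN', Finset.mem_filter, mem_range] at hl'
      obtain ⟨i, hi, h1, h2⟩ := hnear l hl'.2.2.1 hl'.2.2.2 hl'.2.1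
      rw [Finset.mem_biUnion]
      refine ⟨i, hi, ?_⟩
      rw [Finset.mem_Icc]
      omega
    refine (Finset.card_le_card hsub).trans ?_
    refine Finset.card_biUnion_le_card_mul _ _ _ ?_
    intro i _
    rw [Nat.card_Icc]
    omega
  have hD0 : 0 ≤ D := by linarith
  have hdm : del * m ≤ D / 24 := by
    have h1 : del * m ≤ del * (((KN k : ℝ) + 4) * D) := mul_le_mul_of_nonneg_left hm hdel0.le
    have h2 : del * (((KN k : ℝ) + 4) * D) ≤ 1 / 24 * D := by
      rw [← mul_assoc]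
      exact mul_le_mul_of_nonneg_right hdelK hD0
    linarith
  have hc2' : (N.card : ℝ) ≤ (N'.card : ℝ) + (k + 2) + 2 * k := by exact_mod_cast hc2
  have hc3' : (N'.card : ℝ) ≤ (J.card : ℝ) * (k + 1) := by exact_mod_cast hc3
  have hc4 : D / 2 ≤ (J.card : ℝ) * (k + 1) := by linarith
  have hfin : (L₀ + 1) * (1 + Real.log (1 / c₁)) ≤ (J.card : ℝ) * lam := by
    have h1 : 2 * ((k : ℝ) + 1) * (L₀ + 1) / lam * (1 + Real.log (1 / c₁)) ≤
        2 * ((J.card : ℝ) * (k + 1)) := by linarith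
    have h2 : 2 * ((k : ℝ) + 1) * (L₀ + 1) / lam * (1 + Real.log (1 / c₁)) =
        2 * ((k : ℝ) + 1) * ((L₀ + 1) * (1 + Real.log (1 / c₁)) / lam) := by ring
    rw [h2] at h1
    have h3 : (L₀ + 1) * (1 + Real.log (1 / c₁)) / lam ≤ (J.card : ℝ) := by
      have h4 : 2 * ((k : ℝ) + 1) * ((L₀ + 1) * (1 + Real.log (1 / c₁)) / lam) ≤
          2 * ((k : ℝ) + 1) * (J.card : ℝ) := by linarith
      exact le_of_mul_le_mul_left h4 (by positivity)
    rwa [div_le_iff₀ hlam0] at h3
  have hLy : 0 ≤ L₀ * Real.log (1 / c₁) := mul_nonneg hL₀0 hy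
  nlinarith

end Pool.Agent.H79.LVP
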